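import Pool.Agent.H224R2.Mah.Defs

namespace Pool.Agent.H224R2.Mah

open MeasureTheory Set Filter Topology
open scoped ENNReal RealInnerProductSpace

theorem hasDerivAt_slice {S : ℂ → ℝ} {u : ℂ} (h : DifferentiableAt ℝ S u) :
    HasDerivAt (fun x : ℝ => S (⟨x, u.im⟩ : ℂ)) (dx S u) u.re := by
  have h1 : HasFDerivAt S (fderiv ℝ S u) u := h.hasFDerivAt
  have h2 : HasDerivAt (fun x : ℝ => (⟨x, u.im⟩ : ℂ)) 1 u.re := by
    have h3 : (fun x : ℝ => (⟨x, u.im⟩ : ℂ)) = fun x : ℝ => (x : ℂ) + (u.im : ℂ) * Complex.I := by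
      funext x
      exact (Complex.mk_eq_add_mul_I x u.im)
    rw [h3]
    have := (Complex.ofRealCLM.hasDerivAt (x := u.re)).add_const ((u.im : ℂ) * Complex.I)
    simpa using this
  have h4 : (⟨u.re, u.im⟩ : ℂ) = u := rfl
  have h5 : HasFDerivAt S (fderiv ℝ S u) ((fun x : ℝ => (⟨x, u.im⟩ : ℂ)) u.re) := h1
  exact h5.comp_hasDerivAt u.re h2

/-- one sided version of `A7` -/
theorem A7_right {m : ℕ} (hm : 2 ≤ m) (hopen : IsOpen PP)
    (hcomp : ∀ r : ℝ, r < 1 → IsCompact {u | u ∈ PP ∧ ‖hh u‖ ≤ r})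
    (hlt : ∀ u ∈ PP, ‖hh u‖ < 1)
    (hsm : ContDiffOn ℝ 3 (SS m) PP) (hpos : ∀ u ∈ PP, 0 < u.re → 0 < dx (SS m) u)
    (u : ℂ) (hu : u ∈ PP) (hre : 0 < u.re) :
    (∀ x, 0 ≤ x → x ≤ u.re → (⟨x, u.im⟩ : ℂ) ∈ PP) ∧
    (∀ x, 0 ≤ x → x < u.re → SS m (⟨x, u.im⟩ : ℂ) < SS m u) := by
  have hm0 : 2 * m ≠ 0 := by omega
  set r := ‖hh u‖ with hr
  have hr1 : r < 1 := hlt u hu
  have hC := hcomp r hr1
  have hcont : Continuous (fun x : ℝ => (⟨x, u.im⟩ : ℂ)) := by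
    have h3 : (fun x : ℝ => (⟨x, u.im⟩ : ℂ)) = fun x : ℝ => (x : ℂ) + (u.im : ℂ) * Complex.I := by
      funext x
      exact (Complex.mk_eq_add_mul_I x u.im)
    rw [h3]
    fun_prop
  have hdiff : ∀ w ∈ PP, DifferentiableAt ℝ (SS m) w := fun w hw =>
    ((hsm.contDiffAt (hopen.mem_nhds hw)).differentiableAt (by norm_num))
  have hsub : Icc 0 u.re ⊆ {s : ℝ | (⟨u.re - s, u.im⟩ : ℂ) ∈ {w | w ∈ PP ∧ ‖hh w‖ ≤ r}} := by
    apply IsClosed.Icc_subset_of_forall_mem_nhdsWithin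
    · refine IsClosed.inter ?_ isClosed_Icc
      exact hC.isClosed.preimage (hcont.comp (continuous_const.sub continuous_id))
    · show (⟨u.re - 0, u.im⟩ : ℂ) ∈ {w | w ∈ PP ∧ ‖hh w‖ ≤ r}
      rw [sub_zero]
      exact ⟨hu, le_refl _⟩
    · rintro s ⟨⟨hs1, hs2⟩, hs3, hs4⟩
      set w : ℂ := ⟨u.re - s, u.im⟩ with hw
      have hwre : w.re = u.re - s := rfl
      have hwim : w.im = u.im := rfl
      have hw0 : 0 < w.re := by rw [hwre]; linarith
      have hd := hasDerivAt_slice (hdiff w hs1)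
      rw [hwim, hwre] at hd
      have hd' : 0 < dx (SS m) w := hpos w hs1 hw0
      -- S is smaller slightly to the left
      have h1 : ∀ᶠ x in 𝓝[<] (u.re - s), SS m (⟨x, u.im⟩ : ℂ) < SS m w := by
        have h2 := (hasDerivAt_iff_tendsto_slope.1 hd).eventually (lt_mem_nhds hd')
        have h3 : ∀ᶠ x in 𝓝[<] (u.re - s),
            0 < slope (fun x : ℝ => SS m (⟨x, u.im⟩ : ℂ)) (u.re - s) x :=
          h2.filter_mono (nhdsWithin_mono _ (fun x hx => ne_of_lt hx))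
        filter_upwards [h3, self_mem_nhdsWithin] with x hx hx2
        rw [slope_def_field] at hx
        have hx3 : x - (u.re - s) < 0 := by
          have : x < u.re - s := hx2
          linarith
        rcases div_pos_iff.1 hx with hx4 | hx4
        · linarith [hx4.2]
        · have hx5 := hx4.1
          linarith
      have h2 : ∀ᶠ x in 𝓝[<] (u.re - s), (⟨x, u.im⟩ : ℂ) ∈ PP := by
        apply mem_nhdsWithin_of_mem_nhds
        exact hcont.continuousAt.preimage_mem_nhds (hopen.mem_nhds hs1)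
      have h3 : ∀ᶠ x in 𝓝[<] (u.re - s), (⟨x, u.im⟩ : ℂ) ∈ {w | w ∈ PP ∧ ‖hh w‖ ≤ r} := by
        filter_upwards [h1, h2] with x hx1 hx2
        refine ⟨hx2, ?_⟩
        have h4 : SS m (⟨x, u.im⟩ : ℂ) < r ^ (2 * m) :=
          lt_of_lt_of_le hx1 (pow_le_pow_left₀ (norm_nonneg _) hs2 _)
        exact (lt_of_pow_lt_pow_left₀ _ (norm_nonneg _) h4).le
      have h5 : Tendsto (fun s' : ℝ => u.re - s') (𝓝[>] s) (𝓝[<] (u.re - s)) := by
        apply tendsto_nhdsWithin_iff.2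
        refine ⟨?_, ?_⟩
        · exact ((continuous_const.sub continuous_id).tendsto s).mono_left nhdsWithin_le_nhds
        · filter_upwards [self_mem_nhdsWithin] with y hy
          have : s < y := hy
          show u.re - y < u.re - s
          linarith
      exact h5.eventually h3
  have hmem : ∀ x, 0 ≤ x → x ≤ u.re → (⟨x, u.im⟩ : ℂ) ∈ PP := by
    intro x hx0 hx1
    have h0 : u.re - x ∈ Icc 0 u.re := ⟨by linarith, by linarith⟩
    have := hsub h0
    have h1 : (⟨u.re - (u.re - x), u.im⟩ : ℂ) ∈ PP := this.1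
    rwa [sub_sub_cancel] at h1
  refine ⟨hmem, ?_⟩
  intro x hx0 hx1
  have hmono : StrictMonoOn (fun x : ℝ => SS m (⟨x, u.im⟩ : ℂ)) (Icc 0 u.re) := by
    apply strictMonoOn_of_deriv_pos (convex_Icc _ _)
    · intro y hy
      have hd := hasDerivAt_slice (hdiff (⟨y, u.im⟩ : ℂ) (hmem y hy.1 hy.2))
      exact hd.continuousAt.continuousWithinAt
    · intro y hy
      rw [interior_Icc] at hy
      have hd := hasDerivAt_slice (hdiff (⟨y, u.im⟩ : ℂ) (hmem y hy.1.le hy.2.le))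
      have : deriv (fun x : ℝ => SS m (⟨x, u.im⟩ : ℂ)) y = dx (SS m) (⟨y, u.im⟩ : ℂ) := hd.deriv
      rw [this]
      exact hpos _ (hmem y hy.1.le hy.2.le) hy.1
  exact hmono ⟨hx0, hx1.le⟩ ⟨hre.le, le_refl _⟩ hx1

theorem A7_mono_of
    (A3_bounds : ∀ ζ : ℂ, ‖ζ‖ < 1 → ‖U ζ‖ ≤ ‖ζ‖ ∧ ‖ζ‖ ≤ 2 * ‖U ζ‖ ∧ U (-ζ) = -U ζ ∧
      U ((starRingEnd ℂ) ζ) = (starRingEnd ℂ) (U ζ))
    (A4_inverse : IsOpen PP ∧ (∀ u ∈ PP, ‖hh u‖ < 1 ∧ U (hh u) = u ∧
      HasDerivAt hh (U' (hh u))⁻¹ u) ∧ (∀ ζ : ℂ, ‖ζ‖ < 1 → U ζ ∈ PP ∧ hh (U ζ) = ζ) ∧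
      ∀ r : ℝ, r < 1 → IsCompact {u | u ∈ PP ∧ ‖hh u‖ ≤ r})
    (A5_smooth : ∀ m : ℕ, 2 ≤ m → ContDiffOn ℝ 3 (SS m) PP)
    (A6_pos : ∀ m : ℕ, 2 ≤ m → ∀ u ∈ PP, 0 < u.re → 0 < dx (SS m) u)
    {m : ℕ} (hm : 2 ≤ m) : ∀ u ∈ PP, ∀ v ∈ PP, u.im = v.im → u.re < v.re →
    (∀ x, u.re ≤ x → x ≤ v.re → (⟨x, u.im⟩ : ℂ) ∈ PP) ∧
    Real.sign u.re * SS m u < Real.sign v.re * SS m v := by
  obtain ⟨hopen, hinv, hU, hcomp⟩ := A4_inverse
  have hm0 : 2 * m ≠ 0 := by omega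
  have hlt : ∀ u ∈ PP, ‖hh u‖ < 1 := fun u hu => (hinv u hu).1
  have hR := A7_right hm hopen hcomp hlt (A5_smooth m hm) (A6_pos m hm)
  -- symmetry
  have hsym : ∀ u ∈ PP, (⟨-u.re, u.im⟩ : ℂ) ∈ PP ∧ SS m (⟨-u.re, u.im⟩ : ℂ) = SS m u := by
    intro u hu
    obtain ⟨h1, h2, -⟩ := hinv u hu
    have h3 : ‖-(starRingEnd ℂ) (hh u)‖ < 1 := by rw [norm_neg, RCLike.norm_conj]; exact h1
    have h3' : ‖(starRingEnd ℂ) (hh u)‖ < 1 := by rw [RCLike.norm_conj]; exact h1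
    have h4 : U (-(starRingEnd ℂ) (hh u)) = (⟨-u.re, u.im⟩ : ℂ) := by
      rw [(A3_bounds _ h3').2.2.1, (A3_bounds _ h1).2.2.2, h2]
      apply Complex.ext <;> simp
    obtain ⟨h5, h6⟩ := hU _ h3
    rw [h4] at h5 h6
    refine ⟨h5, ?_⟩
    unfold SS
    rw [h6, norm_neg, RCLike.norm_conj]
  have hne : ∀ u ∈ PP, u ≠ 0 → 0 < SS m u := by
    intro u hu hu0
    unfold SS
    apply pow_pos
    rw [norm_pos_iff]
    intro h0
    apply hu0
    rw [← (hinv u hu).2.1, h0]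
    have := (A3_bounds 0 (by simp)).1
    simpa using this
  intro u hu v hv him hre
  constructor
  · intro x hx1 hx2
    rcases lt_trichotomy x 0 with hx | hx | hx
    · have hu' := hsym u hu
      have h1 := (hR (⟨-u.re, u.im⟩ : ℂ) hu'.1 (by simp; linarith)).1 (-x) (by linarith)
        (by simp; linarith)
      have h2 := (hsym _ h1).1
      simpa using h2
    · subst hx
      rcases lt_or_ge 0 v.re with hv0 | hv0
      · have h1 := (hR v hv hv0).1 0 le_rfl hv0.le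
        rw [him]
        exact h1
      · have hu0 : u.re < 0 := by linarith
        have hu' := hsym u hu
        have h1 := (hR (⟨-u.re, u.im⟩ : ℂ) hu'.1 (by simp; linarith)).1 0 le_rfl
          (by simp; linarith)
        exact h1
    · have hv0 : 0 < v.re := by linarith
      have h1 := (hR v hv hv0).1 x hx.le hx2
      rw [him]
      exact h1
  · rcases lt_trichotomy u.re 0 with hu0 | hu0 | hu0
    · have hun : u ≠ 0 := by rintro rfl; simp at hu0
      have hSu := hne u hu hun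
      rcases lt_trichotomy v.re 0 with hv0 | hv0 | hv0
      · rw [Real.sign_of_neg hu0, Real.sign_of_neg hv0]
        have hu' := hsym u hu
        have h1 := (hR (⟨-u.re, u.im⟩ : ℂ) hu'.1 (by simp; linarith)).2 (-v.re) (by linarith)
          (by simp; linarith)
        rw [hu'.2] at h1
        have h2 : (⟨-v.re, (⟨-u.re, u.im⟩ : ℂ).im⟩ : ℂ) = (⟨-v.re, v.im⟩ : ℂ) := by
          simp [him]
        rw [h2, (hsym v hv).2] at h1
        linarith
      · rw [Real.sign_of_neg hu0, hv0, Real.sign_zero]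
        linarith
      · have hvn : v ≠ 0 := by rintro rfl; simp at hv0
        have hSv := hne v hv hvn
        rw [Real.sign_of_neg hu0, Real.sign_of_pos hv0]
        linarith
    · have hv0 : 0 < v.re := by linarith
      have hvn : v ≠ 0 := by rintro rfl; simp at hv0
      have hSv := hne v hv hvn
      rw [hu0, Real.sign_zero, Real.sign_of_pos hv0]
      linarith
    · have hv0 : 0 < v.re := by linarith
      rw [Real.sign_of_pos hu0, Real.sign_of_pos hv0]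
      have h1 := (hR v hv hv0).2 u.re hu0.le hre
      have h2 : (⟨u.re, v.im⟩ : ℂ) = u := by
        apply Complex.ext
        · rfl
        · exact him.symm
      rw [h2] at h1
      linarith

end Pool.Agent.H224R2.Mah
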